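import Pool.Agent.Lib.MP_28303a_al.TW.Iface

/-! # MRB: resolutions in terms of matrices under injective group homomorphisms -/

set_option autoImplicit false

namespace Pool.Agent.NegK.TW.H59

universe u v w

open Matrix MonoidAlgebra

section

variable {k G H : Type u} [Ring k] [Group G] [Group H] (f : G →* H) (hf : Function.Injective f)

/-- The component of `x` in the coset `h f(G)`. -/
noncomputable def cmp (h : H) : MonoidAlgebra k H →+ MonoidAlgebra k G where
  toFun x := comapDomain f hf (single h⁻¹ 1 * x)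
  map_zero' := by rw [mul_zero, comapDomain_zero]
  map_add' x y := by rw [mul_add, comapDomain_add]

theorem cmp_coeff (h : H) (x : MonoidAlgebra k H) (g : G) :
    (cmp f hf h x).coeff g = x.coeff (h * f g) := by
  show (comapDomain f hf (single h⁻¹ 1 * x)).coeff g = _
  rw [coeff_comapDomain, Finsupp.comapDomain_apply, MonoidAlgebra.coeff_single_mul_apply, one_mul,
    inv_inv]

theorem cmp_single_mul (h a : H) (c : k) (y : MonoidAlgebra k G) :
    cmp f hf h (single a c * mdr k f y) = cmp f hf h (single a c) * y := by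
  ext g
  rw [cmp_coeff, MonoidAlgebra.coeff_single_mul_apply]
  by_cases hb : ∃ b, a = h * f b
  · obtain ⟨b, rfl⟩ := hb
    have h1 : cmp f hf h (single (h * f b) c) = single b c := by
      ext g'
      rw [cmp_coeff, coeff_single, coeff_single]
      have h3 : (h * f b = h * f g') ↔ b = g' := by
        rw [mul_right_inj]
        exact hf.eq_iff
      by_cases hbg : b = g'
      · rw [hbg, Finsupp.single_eq_same, Finsupp.single_eq_same]
      · rw [Finsupp.single_eq_of_ne (Ne.symm hbg), Finsupp.single_eq_of_ne]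
        exact fun e => hbg (h3.1 e.symm)
    rw [h1, MonoidAlgebra.coeff_single_mul_apply]
    congr 1
    have h2 : (h * f b)⁻¹ * (h * f g) = f (b⁻¹ * g) := by
      rw [map_mul, map_inv]
      group
    rw [h2]
    exact Finsupp.mapDomain_apply hf _ _
  · have h1 : cmp f hf h (single a c) = 0 := by
      ext g'
      rw [cmp_coeff, coeff_single, Finsupp.single_eq_of_ne]
      · rfl
      · intro h2
        exact hb ⟨g', h2.symm⟩
    rw [h1, zero_mul]
    have h2 : (mdr k f y).coeff (a⁻¹ * (h * f g)) = 0 := by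
      refine Finsupp.mapDomain_of_notMem_range _ _ ?_
      rintro ⟨b, hb'⟩
      refine hb ⟨g * b⁻¹, ?_⟩
      rw [map_mul, map_inv, hb']
      group
    rw [h2, mul_zero]
    rfl

theorem cmp_mul (h : H) (x : MonoidAlgebra k H) (y : MonoidAlgebra k G) :
    cmp f hf h (x * mdr k f y) = cmp f hf h x * y := by
  conv_lhs => rw [← sum_single_coeff x]
  conv_rhs => rw [← sum_single_coeff x]
  rw [Finset.sum_mul, map_sum, map_sum, Finset.sum_mul]
  exact Finset.sum_congr rfl fun a _ => cmp_single_mul f hf h a _ y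

theorem cmp_vecMul (h : H) {ι κ : Type} [Fintype ι] (x : ι → MonoidAlgebra k H)
    (z : Matrix ι κ (MonoidAlgebra k G)) (j : κ) :
    cmp f hf h ((x ᵥ* z.map (mdr k f)) j) = ((fun i => cmp f hf h (x i)) ᵥ* z) j := by
  simp only [Matrix.vecMul, dotProduct, Matrix.map_apply]
  rw [map_sum]
  exact Finset.sum_congr rfl fun i _ => cmp_mul f hf h _ _

theorem cmp_ext {x y : MonoidAlgebra k H} (h : ∀ a, cmp f hf a x = cmp f hf a y) : x = y := by
  ext a
  have h1 := congrArg (fun u => u.coeff 1) (h a)
  simp only [cmp_coeff, map_one, mul_one] at h1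
  exact h1

theorem vecMul_iff {ι κ : Type} [Fintype ι] (x : ι → MonoidAlgebra k H)
    (z : Matrix ι κ (MonoidAlgebra k G)) :
    x ᵥ* z.map (mdr k f) = 0 ↔ ∀ h, (fun i => cmp f hf h (x i)) ᵥ* z = 0 := by
  constructor
  · intro hx h
    funext j
    rw [← cmp_vecMul, hx]
    exact map_zero _
  · intro hx
    funext j
    refine cmp_ext f hf fun a => ?_
    rw [cmp_vecMul, hx]
    exact (map_zero _).symm

theorem vecMul_iff' {ι : Type} [Fintype ι] (x : ι → MonoidAlgebra k H)
    (e : Matrix ι ι (MonoidAlgebra k G)) :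
    x ᵥ* e.map (mdr k f) = x ↔
      ∀ h, (fun i => cmp f hf h (x i)) ᵥ* e = fun i => cmp f hf h (x i) := by
  constructor
  · intro hx h
    funext j
    rw [← cmp_vecMul, hx]
  · intro hx
    funext j
    refine cmp_ext f hf fun a => ?_
    rw [cmp_vecMul, hx]

open Classical in
/-- Decomposition with respect to the left cosets. -/
theorem sum_cmp {x : MonoidAlgebra k H} (S : Finset (H ⧸ f.range))
    (hS : ∀ a, x.coeff a ≠ 0 → (a : H ⧸ f.range) ∈ S) :
    ∑ q ∈ S, single q.out 1 * mdr k f (cmp f hf q.out x) = x := by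
  ext a
  rw [coeff_sum, Finsupp.finsetSum_apply]
  have h1 : ∀ q : H ⧸ f.range, (single q.out (1 : k) * mdr k f (cmp f hf q.out x)).coeff a =
      if q = (a : H ⧸ f.range) then x.coeff a else 0 := by
    intro q
    rw [MonoidAlgebra.coeff_single_mul_apply, one_mul]
    split_ifs with hq
    · have h2 : (q.out)⁻¹ * a ∈ f.range := by
        rw [← QuotientGroup.eq, QuotientGroup.out_eq']
        exact hq
      obtain ⟨b, hb⟩ := h2
      rw [← hb]
      have h3 : (mdr k f (cmp f hf q.out x)).coeff (f b) = (cmp f hf q.out x).coeff b :=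
        Finsupp.mapDomain_apply hf _ _
      rw [h3, cmp_coeff, hb, mul_inv_cancel_left]
    · refine Finsupp.mapDomain_of_notMem_range _ _ ?_
      intro h2
      apply hq
      rw [← QuotientGroup.out_eq' q]
      exact QuotientGroup.eq.2 h2
  rw [Finset.sum_congr rfl fun q _ => h1 q, Finset.sum_ite_eq']
  split_ifs with h2
  · rfl
  · by_contra hc
    exact h2 (hS a (Ne.symm hc))

end

theorem mrb : MrbStatement.{u} := by
  classical
  intro k G H _ _ _ f hf n
  induction n with
  | zero =>
    intro ι κ _ _ z h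
    obtain ⟨e, he, h2⟩ := h
    refine ⟨e.map (mdr k f), ?_, fun x => ?_⟩
    · rw [← Matrix.map_mul, he]
    · rw [vecMul_iff f hf, vecMul_iff' f hf]
      exact forall_congr' fun h => h2 _
  | succ n ih =>
    intro ι κ _ _ z h
    obtain ⟨μ, _, y, h1, h2⟩ := h
    refine ⟨μ, inferInstance, y.map (mdr k f), fun x => ?_, ih μ ι y h2⟩
    rw [vecMul_iff f hf]
    constructor
    · intro hx
      have h3 : ∀ h : H, ∃ w : μ → MonoidAlgebra k G, w ᵥ* y = fun i => cmp f hf h (x i) :=
        fun h => (h1 _).1 (hx h)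
      choose w hw using h3
      let S : Finset (H ⧸ f.range) := Finset.univ.biUnion fun i =>
        (x i).coeff.support.image (QuotientGroup.mk : H → H ⧸ f.range)
      have hS : ∀ i a, (x i).coeff a ≠ 0 → (a : H ⧸ f.range) ∈ S := by
        intro i a ha
        refine Finset.mem_biUnion.2 ⟨i, Finset.mem_univ _, Finset.mem_image.2 ⟨a, ?_, rfl⟩⟩
        exact Finsupp.mem_support_iff.2 ha
      refine ⟨fun m => ∑ q ∈ S, MonoidAlgebra.single q.out 1 * mdr k f (w q.out m), ?_⟩
      funext i
      rw [← sum_cmp f hf S (hS i)]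
      simp only [Matrix.vecMul, dotProduct, Matrix.map_apply]
      simp only [Finset.sum_mul]
      rw [Finset.sum_comm]
      refine Finset.sum_congr rfl fun q _ => ?_
      have h4 := congrFun (hw q.out) i
      simp only [Matrix.vecMul, dotProduct] at h4
      rw [← h4, map_sum, Finset.mul_sum]
      refine Finset.sum_congr rfl fun m _ => ?_
      rw [map_mul, mul_assoc]
    · rintro ⟨w, rfl⟩ h
      refine (h1 _).2 ⟨fun m => cmp f hf h (w m), ?_⟩
      funext i
      exact (cmp_vecMul f hf h w y i).symm

end Pool.Agent.NegK.TW.H59
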