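import Pool.Agent.Lib.MP_28303a_al.TW.Iface

/-! # GINV: the inverse of a graded matrix is graded -/

set_option autoImplicit false

namespace Pool.Agent.NegK.TW.H59

universe u v w

open Matrix MonoidAlgebra

theorem ginv : GinvStatement.{u} := by
  intro k Γ D _ _ _ J J' _ _ _ _ dg dg' M N hMN hNM hM
  have h1 : M * part dg' dg (fun d d' => d = d') N = 1 := by
    refine ext_hom dg fun d x hx => ?_
    have hxM : Spt dg' {d} (x ᵥ* M) := hM.spt hx
    rw [← Matrix.vecMul_vecMul, vecMul_part invar_eq N hxM, Matrix.vecMul_vecMul, hMN,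
      Matrix.vecMul_one]
    exact hx.res_of_subset fun e he => (Set.mem_singleton_iff.1 he).symm
  have h2 : part dg' dg (fun d d' => d = d') N = N := by
    calc part dg' dg (fun d d' => d = d') N = (N * M) * part dg' dg (fun d d' => d = d') N := by
          rw [hNM, Matrix.one_mul]
      _ = N * (M * part dg' dg (fun d d' => d = d') N) := Matrix.mul_assoc _ _ _
      _ = N := by rw [h1, Matrix.mul_one]
  rw [← h2]
  exact sup_part _ _ _ _

end Pool.Agent.NegK.TW.H59
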