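import Pool.Agent.Lib.MP_28303a_al.TW.Iface

/-! # MRA: regular coherent rings and resolutions in terms of matrices -/

set_option autoImplicit false

namespace Pool.Agent.NegK.TW.H59

universe u v w

open Matrix

theorem hasFPRes_finite {A : Type u} [Ring A] {n : ℕ} {M : Type u} [AddCommGroup M] [Module A M]
    (h : HasFPRes A n M) : Module.Finite A M := by
  cases n with
  | zero => exact h.1
  | succ n =>
    obtain ⟨P, _, _, f, h1, h2, h3, h4⟩ := h
    exact Module.Finite.of_surjective f h3

theorem mres_of {A : Type u} [Ring A] (n : ℕ) : ∀ {ι κ : Type} [Fintype ι] [Fintype κ]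
    (z : Matrix ι κ A), HasFPRes A n (LinearMap.range z.vecMulLinear) → MRes n z := by
  classical
  induction n with
  | zero =>
    intro ι κ _ _ z h
    obtain ⟨h1, h2⟩ := h
    obtain ⟨s, hs⟩ := Module.projective_lifting_property z.vecMulLinear.rangeRestrict
      LinearMap.id z.vecMulLinear.surjective_rangeRestrict
    have hs' : ∀ y, z.vecMulLinear.rangeRestrict (s y) = y := fun y => LinearMap.congr_fun hs y
    let E : (ι → A) →ₗ[A] (ι → A) := LinearMap.id - s ∘ₗ z.vecMulLinear.rangeRestrict
    have hE : ∀ x, E x = x - s (z.vecMulLinear.rangeRestrict x) := fun x => rfl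
    have he : ∀ x, x ᵥ* LinearMap.toMatrixRight' E = E x := fun x => by
      have := Matrix.toLinearMapRight'_apply (LinearMap.toMatrixRight' E) x
      rw [← this]
      simp
    refine ⟨LinearMap.toMatrixRight' E, ?_, fun x => ?_⟩
    · rw [← LinearMap.toMatrixRight'_comp]
      congr 1
      refine LinearMap.ext fun x => ?_
      show E (E x) = E x
      rw [hE (E x), hE x, map_sub, hs', sub_self, map_zero, sub_zero]
    · rw [he, hE]
      constructor
      · intro hx
        have h0 : z.vecMulLinear.rangeRestrict x = 0 := Subtype.ext hx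
        rw [h0, map_zero, sub_zero]
      · intro hx
        have h0 : s (z.vecMulLinear.rangeRestrict x) = 0 := by
          have := sub_eq_self.1 hx
          exact this
        have h3 := hs' (z.vecMulLinear.rangeRestrict x)
        rw [h0, map_zero] at h3
        exact congrArg Subtype.val h3.symm
  | succ n ih =>
    intro ι κ _ _ z h
    have h1 : HasFPRes A n (LinearMap.ker z.vecMulLinear.rangeRestrict) :=
      HasFPRes.syz inferInstance inferInstance _ z.vecMulLinear.surjective_rangeRestrict h
    have h2 : (LinearMap.ker z.vecMulLinear.rangeRestrict).FG :=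
      Module.Finite.iff_fg.1 (hasFPRes_finite h1)
    obtain ⟨m, y, hy⟩ := Submodule.fg_iff_exists_fin_generating_family.1 h2
    let Y : Matrix (Fin m) ι A := y
    have hr : LinearMap.range Y.vecMulLinear = LinearMap.ker z.vecMulLinear.rangeRestrict := by
      rw [range_vecMulLinear, ← hy]
      rfl
    refine ⟨Fin m, inferInstance, Y, fun x => ?_, ih Y (hr ▸ h1)⟩
    have h3 : x ᵥ* z = 0 ↔ x ∈ LinearMap.ker z.vecMulLinear.rangeRestrict := by
      rw [LinearMap.ker_rangeRestrict, LinearMap.mem_ker]
      rfl
    rw [h3, ← hr]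
    rfl

theorem mra : MraStatement.{u} := by
  intro A _ hA ι κ _ _ z
  classical
  let e : (κ → A) ≃ₗ[A] (Fin (Fintype.card κ) → A) :=
    LinearEquiv.funCongrLeft A A (Fintype.equivFin κ).symm
  have h1 : (LinearMap.range z.vecMulLinear).FG := by
    rw [LinearMap.range_eq_map]
    exact Submodule.FG.map _ Module.Finite.fg_top
  obtain ⟨d, hd⟩ := hA _ ((LinearMap.range z.vecMulLinear).map e.toLinearMap) (h1.map _)
  exact ⟨d, mres_of d z (hd.congr (e.submoduleMap _).symm)⟩

end Pool.Agent.NegK.TW.H59
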