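import Pool.Agent.Lib.MP_28303a_al.TW.Graph2

/-! # MRP: resolutions in terms of matrices under `A → A[X]` -/

set_option autoImplicit false

namespace Pool.Agent.NegK.TW.H59

universe u v w

open Matrix Polynomial

section

variable {A : Type u} [Ring A]

theorem coeff_vecMul (n : ℕ) {ι κ : Type} [Fintype ι] (x : ι → Polynomial A) (z : Matrix ι κ A)
    (j : κ) : ((x ᵥ* z.map (Polynomial.C : A →+* Polynomial A)) j).coeff n =
      ((fun i => (x i).coeff n) ᵥ* z) j := by
  simp only [Matrix.vecMul, dotProduct, Matrix.map_apply]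
  rw [Polynomial.finsetSum_coeff]
  exact Finset.sum_congr rfl fun i _ => Polynomial.coeff_mul_C _ _ _

theorem pvecMul_iff {ι κ : Type} [Fintype ι] (x : ι → Polynomial A) (z : Matrix ι κ A) :
    x ᵥ* z.map (Polynomial.C : A →+* Polynomial A) = 0 ↔
      ∀ n, (fun i => (x i).coeff n) ᵥ* z = 0 := by
  constructor
  · intro hx n
    funext j
    rw [← coeff_vecMul, hx]
    rfl
  · intro hx
    funext j
    ext n
    rw [coeff_vecMul, hx]
    rfl

theorem pvecMul_iff' {ι : Type} [Fintype ι] (x : ι → Polynomial A) (e : Matrix ι ι A) :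
    x ᵥ* e.map (Polynomial.C : A →+* Polynomial A) = x ↔
      ∀ n, (fun i => (x i).coeff n) ᵥ* e = fun i => (x i).coeff n := by
  constructor
  · intro hx n
    funext j
    rw [← coeff_vecMul, hx]
  · intro hx
    funext j
    ext n
    rw [coeff_vecMul, hx]

end

theorem mrp : MrpStatement.{u} := by
  classical
  intro A _ n
  induction n with
  | zero =>
    intro ι κ _ _ z h
    obtain ⟨e, he, h2⟩ := h
    refine ⟨e.map (Polynomial.C : A →+* Polynomial A), ?_, fun x => ?_⟩
    · rw [← Matrix.map_mul, he]
    · rw [pvecMul_iff, pvecMul_iff']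
      exact forall_congr' fun h => h2 _
  | succ n ih =>
    intro ι κ _ _ z h
    obtain ⟨μ, _, y, h1, h2⟩ := h
    refine ⟨μ, inferInstance, y.map (Polynomial.C : A →+* Polynomial A), fun x => ?_,
      ih μ ι y h2⟩
    rw [pvecMul_iff]
    constructor
    · intro hx
      have h3 : ∀ m : ℕ, ∃ w : μ → A, w ᵥ* y = fun i => (x i).coeff m := fun m => (h1 _).1 (hx m)
      choose w hw using h3
      let N : ℕ := (Finset.univ.sup fun i => (x i).natDegree) + 1
      have hN : ∀ i, (x i).natDegree < N := fun i =>
        Nat.lt_succ_of_le (Finset.le_sup (f := fun i => (x i).natDegree) (Finset.mem_univ i))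
      refine ⟨fun l => ∑ m ∈ Finset.range N, Polynomial.monomial m (w m l), ?_⟩
      funext i
      rw [(x i).as_sum_range' N (hN i)]
      simp only [Matrix.vecMul, dotProduct, Matrix.map_apply]
      simp only [Finset.sum_mul]
      rw [Finset.sum_comm]
      refine Finset.sum_congr rfl fun m _ => ?_
      have h4 := congrFun (hw m) i
      simp only [Matrix.vecMul, dotProduct] at h4
      rw [← h4, map_sum]
      refine Finset.sum_congr rfl fun l _ => ?_
      exact Polynomial.monomial_mul_C
    · rintro ⟨w, rfl⟩ m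
      refine (h1 _).2 ⟨fun l => (w l).coeff m, ?_⟩
      funext i
      exact (coeff_vecMul m w y i).symm

end Pool.Agent.NegK.TW.H59
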